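import Pool.Agent.Helper6.MONO.Stmts

/-!
Module CHN (`MP_c75db0_gt`).
-/

set_option autoImplicit false
noncomputable section
namespace Pool.Agent.Helper6.MONO

theorem chn_kp {M : ℕ} (hM : 3 ≤ M) : 1 ≤ Kp M ∧ Kp M ≤ 2 := by
  have h3 : (3 : ℝ) ≤ M := by exact_mod_cast hM
  have h0 : (0 : ℝ) < M := by linarith
  refine ⟨?_, ?_⟩
  · have h1 : Real.cos (Real.pi / 3) ≤ Real.cos (Real.pi / M) := by
      apply Real.cos_le_cos_of_nonneg_of_le_pi
      · positivity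
      · have := Real.pi_pos
        linarith
      · exact div_le_div_of_nonneg_left Real.pi_pos.le (by norm_num) h3
    rw [Real.cos_pi_div_three] at h1
    unfold Kp
    linarith
  · unfold Kp
    have := Real.cos_le_one (Real.pi / M)
    linarith

theorem chn_mm {p q r : ℕ} (hp : 3 ≤ p) (hq : 3 ≤ q) (hr : 3 ≤ r) {i j : Fin 3} (h : i ≠ j) :
    3 ≤ mm p q r i j := by
  fin_cases i <;> fin_cases j <;> simp_all [mm]

theorem chn_kk {p q r : ℕ} (hp : 3 ≤ p) (hq : 3 ≤ q) (hr : 3 ≤ r) {i j : Fin 3} (h : i ≠ j) :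
    1 ≤ kk p q r i j ∧ kk p q r i j ≤ 2 := chn_kp (chn_mm hp hq hr h)

theorem chn_sym (p q r : ℕ) (i j : Fin 3) : kk p q r i j = kk p q r j i := by
  unfold kk
  congr 1
  fin_cases i <;> fin_cases j <;> rfl

theorem chn_cov {c d e : Fin 3} (h : Dist c d e) (i : Fin 3) : i = c ∨ i = d ∨ i = e := by
  obtain ⟨h1, h2, h3⟩ := h
  revert h1 h2 h3
  revert i c d e
  decide

theorem chn_iot {τ : ℝ} (hτ : |τ| ≤ 1) (c d : Fin 3) : ‖iot τ c d‖ ≤ 1 := by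
  unfold iot
  rw [norm_mul, Complex.norm_I, mul_one, Complex.norm_real, Real.norm_eq_abs, abs_mul]
  have h1 : |sgs c d| = 1 := by
    unfold sgs
    split_ifs <;> simp
  rw [h1, one_mul]
  exact hτ

theorem chn_lin {τ : ℝ} (hτ : |τ| ≤ 1) (c d : Fin 3) {u v B : ℝ} (hu : |u| ≤ B) (hv : |v| ≤ B) :
    ‖(u : ℂ) + iot τ c d * v‖ ≤ 2 * B := by
  have h0 : 0 ≤ B := (abs_nonneg u).trans hu
  calc ‖(u : ℂ) + iot τ c d * v‖ ≤ ‖(u : ℂ)‖ + ‖iot τ c d * v‖ := norm_add_le _ _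
    _ = |u| + ‖iot τ c d‖ * |v| := by
      rw [norm_mul, Complex.norm_real, Complex.norm_real, Real.norm_eq_abs, Real.norm_eq_abs]
    _ ≤ B + 1 * B := by
      refine add_le_add hu (mul_le_mul (chn_iot hτ c d) hv (abs_nonneg _) zero_le_one)
    _ = 2 * B := by ring

theorem st_CHN : ST_CHN := by
  intro p q r hp hq hr B
  refine ⟨5 * |B| + 1, by positivity, ?_⟩
  intro τ G hτ hG c d e hD x ξ z hc ha hb hbe hyr
  have hB : 0 ≤ B := (abs_nonneg _).trans ha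
  rw [abs_of_nonneg hB]
  have hcd := hD.1
  have hde := hD.2.1
  have hec := hD.2.2
  have hpiv := hc.piv
  have hu := hc.hu
  have hy := hc.hy
  simp only at hpiv hu hy
  set k := kk p q r d e with hk
  set h₁ := kk p q r c d with hh1
  set h₂ := kk p q r c e with hh2
  have k1 := chn_kk hp hq hr hde
  have k2 := chn_kk hp hq hr hcd
  have k3 := chn_kk hp hq hr hec.symm
  rw [← hk] at k1
  rw [← hh1] at k2
  rw [← hh2] at k3
  have g1 : ‖G e c‖ = h₂ := by rw [hG.nrm e c hec, chn_sym]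
  have g2 : ‖G d c‖ = h₁ := by rw [hG.nrm d c hcd.symm, chn_sym]
  have g3 : ‖G e d‖ = k := by rw [hG.nrm e d hde.symm, chn_sym]
  have g4 : ‖G c d‖ = h₁ := by rw [hG.nrm c d hcd]
  have hξ : 0 ≤ ‖ξ‖ := norm_nonneg _
  have h10 : 0 ≤ h₁ := by linarith
  have h20 : 0 ≤ h₂ := by linarith
  -- the coordinate `e`
  have hcP : 3 / 2 ≤ cP k h₁ h₂ := by
    unfold cP
    nlinarith [mul_le_mul k1.1 k2.1 zero_le_one (zero_le_one.trans k1.1)]
  have e1 : 4 * cP k h₁ h₂ * h₂ * ‖x e‖ =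
      h₂ * h₁ ^ 2 * ‖ξ‖ * ‖1 + iot τ c d‖ * ‖(z.yr : ℂ) + iot τ c d * z.be‖ := by
    have h := congrArg norm hy
    rw [norm_mul, norm_mul, norm_mul, norm_mul, norm_mul, Complex.norm_real, Complex.norm_real,
      Real.norm_eq_abs, Real.norm_eq_abs, g1, abs_of_nonneg (by linarith : 0 ≤ 4 * cP k h₁ h₂),
      abs_of_nonneg (mul_nonneg (by linarith) (sq_nonneg _))] at h
    exact h
  have e2 : ‖1 + iot τ c d‖ ≤ 2 := by
    refine (norm_add_le _ _).trans ?_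
    rw [norm_one]
    have := chn_iot hτ c d
    linarith
  have e3 := chn_lin hτ c d hyr hbe
  have e4 : ‖x e‖ ≤ 3 * B * ‖ξ‖ := by
    have s1 : h₁ ^ 2 ≤ 4 := by nlinarith
    have s2 : h₂ * h₁ ^ 2 * ‖ξ‖ * ‖1 + iot τ c d‖ * ‖(z.yr : ℂ) + iot τ c d * z.be‖ ≤
        h₂ * 4 * ‖ξ‖ * 2 * (2 * B) := by
      gcongr
    rw [← e1] at s2
    have s3 : 4 * (3 / 2) * h₂ * ‖x e‖ ≤ 4 * cP k h₁ h₂ * h₂ * ‖x e‖ := by
      gcongr
    have s4 : h₂ * (6 * ‖x e‖) ≤ h₂ * (16 * B * ‖ξ‖) := by nlinarith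
    have s5 := le_of_mul_le_mul_left s4 (by linarith)
    have s6 : 0 ≤ B * ‖ξ‖ := mul_nonneg hB hξ
    linarith
  -- the coordinate `d`
  have d1 : ‖2 * x d - G e d * x e - G c d * ξ‖ * h₁ = h₁ ^ 2 * ‖ξ‖ * ‖(z.a : ℂ) + iot τ c d * z.b‖ := by
    have h := congrArg norm hu
    rw [norm_mul, norm_neg, norm_mul, norm_mul, Complex.norm_real, Real.norm_eq_abs, g2,
      abs_of_nonneg (sq_nonneg _)] at h
    exact h
  have d2 := chn_lin hτ c d ha hb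
  have d3 : ‖2 * x d - G e d * x e - G c d * ξ‖ ≤ 4 * B * ‖ξ‖ := by
    have s1 : ‖2 * x d - G e d * x e - G c d * ξ‖ * h₁ ≤ (4 * B * ‖ξ‖) * h₁ := by
      rw [d1]
      calc h₁ ^ 2 * ‖ξ‖ * ‖(z.a : ℂ) + iot τ c d * z.b‖ ≤ h₁ ^ 2 * ‖ξ‖ * (2 * B) := by gcongr
        _ = h₁ * (2 * B * ‖ξ‖) * h₁ := by ring
        _ ≤ 2 * (2 * B * ‖ξ‖) * h₁ := by
          have : 0 ≤ h₁ := by linarith
          have s6 : 0 ≤ B * ‖ξ‖ := mul_nonneg hB hξ
          have s7 : 0 ≤ 2 * B * ‖ξ‖ := by linarith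
          gcongr
          exact k2.2
        _ = (4 * B * ‖ξ‖) * h₁ := by ring
    exact le_of_mul_le_mul_right s1 (by linarith)
  have d4 : ‖x d‖ ≤ (5 * B + 1) * ‖ξ‖ := by
    have t1 : 2 * x d = (2 * x d - G e d * x e - G c d * ξ) + G e d * x e + G c d * ξ := by ring
    have t2 : 2 * ‖x d‖ ≤ 4 * B * ‖ξ‖ + k * ‖x e‖ + h₁ * ‖ξ‖ := by
      have t3 : ‖2 * x d‖ = 2 * ‖x d‖ := by rw [norm_mul]; simp
      rw [← t3, t1]
      refine (norm_add_le _ _).trans (add_le_add ((norm_add_le _ _).trans (add_le_add d3 ?_)) ?_)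
      · rw [norm_mul, g3]
      · rw [norm_mul, g4]
    have t4 : k * ‖x e‖ ≤ 2 * (3 * B * ‖ξ‖) := by
      have := norm_nonneg (x e)
      have k0 : 0 ≤ k := by linarith
      exact mul_le_mul k1.2 e4 this (by norm_num)
    have t5 : h₁ * ‖ξ‖ ≤ 2 * ‖ξ‖ := mul_le_mul_of_nonneg_right k2.2 hξ
    nlinarith
  have s6 : 0 ≤ B * ‖ξ‖ := mul_nonneg hB hξ
  refine ⟨?_, ?_⟩
  · rw [← hpiv]
    exact norm_le_pi_norm x c
  · rw [pi_norm_le_iff_of_nonneg (by positivity)]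
    intro i
    rcases chn_cov hD i with rfl | rfl | rfl
    · rw [hpiv]
      nlinarith
    · exact d4
    · nlinarith

end Pool.Agent.Helper6.MONO
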