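import Pool.Agent.Helper6.MONO.Stmts

/-!
Module PATH (`MP_c75db0_gt`).
-/

set_option autoImplicit false
noncomputable section
namespace Pool.Agent.Helper6.MONO

theorem path_gact_app (G : Fin 3 → Fin 3 → ℂ) (u v : List (Fin 3)) (x : Fin 3 → ℂ) :
    gact G (u ++ v) x = gact G v (gact G u x) := by
  simp only [gact, List.foldl_append]

theorem path_cong {p q r : ℕ} (a b : List (Fin 3)) {u v : List (Fin 3)} (h : Eqv p q r u v) :
    Eqv p q r (a ++ (u ++ b)) (a ++ (v ++ b)) := by
  intro τ G hG x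
  simp only [path_gact_app]
  rw [h τ G hG]

theorem path_trans {p q r : ℕ} {u v w : List (Fin 3)} (h : Eqv p q r u v) (h' : Eqv p q r v w) :
    Eqv p q r u w := fun τ G hG x => (h τ G hG x).trans (h' τ G hG x)

theorem path_refl (p q r : ℕ) (u : List (Fin 3)) : Eqv p q r u u := fun _ _ _ _ => rfl

theorem path_min (p q r : ℕ) (w : List (Fin 3)) : ∃ u, Eqv p q r w u ∧ MinW p q r u := by
  classical
  have hex : ∃ n : ℕ, ∃ u, Eqv p q r w u ∧ u.length = n := ⟨_, w, path_refl p q r w, rfl⟩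
  obtain ⟨u, hu, hl⟩ := Nat.find_spec hex
  refine ⟨u, hu, ?_⟩
  intro v hv
  rw [hl]
  exact Nat.find_min' hex ⟨v, path_trans hu hv, rfl⟩

theorem path_alt_len (i j : Fin 3) (n : ℕ) : (alt i j n).length = n := by
  induction n generalizing i j with
  | zero => rfl
  | succ n ih => simp only [alt, List.length_cons, ih]

theorem path_alt_pre (m : ℕ) : ∀ (i j : Fin 3) (n : ℕ), m ≤ n →
    ∃ t, alt i j n = alt i j m ++ t := by
  induction m with
  | zero => exact fun i j n _ => ⟨_, rfl⟩
  | succ m ih =>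
    intro i j n hn
    obtain ⟨n, rfl⟩ : ∃ k, n = k + 1 := ⟨n - 1, by omega⟩
    obtain ⟨t, ht⟩ := ih j i n (by omega)
    exact ⟨t, by simp only [alt, ht, List.cons_append]⟩

theorem path_mm {p q r : ℕ} (hp : 3 ≤ p) (hq : 3 ≤ q) (hr : 3 ≤ r) {i j : Fin 3} (h : i ≠ j) :
    3 ≤ mm p q r i j ∧ mm p q r i j ≤ p + q + r ∧ mm p q r i j = mm p q r j i := by
  fin_cases i <;> fin_cases j <;> simp [mm] at h ⊢ <;> omega

/-- an alternating word which is too long is equivalent to a shorter one -/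
theorem path_short (hB : ST_BRD) (hI : ST_INV) {p q r : ℕ} (hp : 3 ≤ p) (hq : 3 ≤ q) (hr : 3 ≤ r)
    {i j : Fin 3} (h : i ≠ j) :
    Eqv p q r (alt i j (mm p q r i j + 1)) (alt j i (mm p q r i j - 1)) := by
  obtain ⟨h3, -, hs⟩ := path_mm hp hq hr h
  have h1 : Eqv p q r (alt j i (mm p q r i j)) (alt i j (mm p q r i j)) := by
    rw [hs]
    exact hB p q r hp hq hr j i h.symm
  have h2 := path_cong [i] [] h1
  rw [List.append_nil, List.append_nil] at h2
  obtain ⟨n, hn⟩ : ∃ n, mm p q r i j = n + 1 := ⟨mm p q r i j - 1, by omega⟩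
  have h4 : [i] ++ alt i j (mm p q r i j) = [] ++ ([i, i] ++ alt j i (mm p q r i j - 1)) := by
    rw [hn]
    simp [alt]
  have h5 := path_cong [] (alt j i (mm p q r i j - 1)) (hI p q r hp hq hr i)
  rw [← h4] at h5
  exact path_trans h2 h5

theorem path_bound (hB : ST_BRD) (hI : ST_INV) {p q r : ℕ} (hp : 3 ≤ p) (hq : 3 ≤ q) (hr : 3 ≤ r)
    {i j : Fin 3} (h : i ≠ j) {a b : List (Fin 3)} {n : ℕ}
    (hM : MinW p q r (a ++ (alt i j n ++ b))) : n ≤ mm p q r i j := by
  by_contra hlt
  rw [not_le] at hlt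
  obtain ⟨t, ht⟩ := path_alt_pre (mm p q r i j + 1) i j n hlt
  rw [ht, List.append_assoc] at hM
  have h1 := hM _ (path_cong a (t ++ b) (path_short hB hI hp hq hr h))
  simp only [List.length_append, path_alt_len] at h1
  have := (path_mm hp hq hr h).1
  omega

theorem path_chain (hI : ST_INV) {p q r : ℕ} (hp : 3 ≤ p) (hq : 3 ≤ q) (hr : 3 ≤ r)
    (u : List (Fin 3)) : ∀ a : List (Fin 3), MinW p q r (a ++ u) →
    List.IsChain (fun a b => a ≠ b) u := by
  induction u with
  | nil => exact fun a _ => List.isChain_nil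
  | cons x u ih =>
    intro a hM
    cases u with
    | nil => exact List.isChain_singleton x
    | cons y u =>
      rw [List.isChain_cons_cons]
      refine ⟨?_, ih (a ++ [x]) (by simpa using hM)⟩
      rintro rfl
      have h1 := hM (a ++ ([] ++ u)) (path_cong a u (hI p q r hp hq hr x))
      simp only [List.length_append, List.length_cons, List.length_nil] at h1
      omega

theorem st_PATH' : ST_PATH' := by
  intro hB hI hC hF p q r hp hq hr
  refine ⟨p + q + r + 1, ?_⟩
  intro w
  obtain ⟨u, hu, hM⟩ := path_min p q r w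
  obtain ⟨h, c, d, e, bs, hD, hs, he, hh⟩ := hC u (path_chain hI hp hq hr u [] (by simpa using hM))
  rw [he] at hM
  refine ⟨h, c, d, e, bs, hD, ?_, hF hB hI p q r hp hq hr h c d e bs hD hs hM, ?_⟩
  · rcases hh with ⟨i, j, n, hij, rfl⟩ | ⟨a, i, j, n, hij, rfl⟩
    · have h1 := path_bound hB hI hp hq hr hij (a := []) (by simpa using hM)
      have h2 := (path_mm hp hq hr hij).2.1
      rw [path_alt_len]
      omega
    · have h1 := path_bound hB hI hp hq hr hij (a := [a]) (by simpa using hM)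
      have h2 := (path_mm hp hq hr hij).2.1
      rw [List.length_cons, path_alt_len]
      omega
  · rw [← he]
    exact hu

end Pool.Agent.Helper6.MONO
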