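import Pool.Agent.Helper6.MONO.Stmts

/-!
Module TLE (`MP_c75db0_gt`).
-/

set_option autoImplicit false
noncomputable section
namespace Pool.Agent.Helper6.MONO

theorem tle_herm (x : V3) : (hf x x).im = 0 := by
  simp only [hf, Complex.star_def, Complex.sub_im, Complex.add_im, Complex.mul_conj,
    Complex.ofReal_im]
  ring

theorem tle_symm (x y : V3) : ‖hf x y‖ = ‖hf y x‖ := by
  have h : hf y x = star (hf x y) := by
    simp only [hf, star_sub, star_add, star_mul', star_star]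
    ring
  rw [h, norm_star]

theorem tle_hd_symm (x y : V3) : hd x y = hd y x := by
  rw [hd, hd, tle_symm, mul_comm (hf x x).re]

theorem tle_hd_self {x : V3} (hx : Neg x) : hd x x = 0 := by
  have h1 : ‖hf x x‖ = |(hf x x).re| := by
    have h2 : hf x x = (((hf x x).re : ℝ) : ℂ) := by
      apply Complex.ext
      · simp
      · rw [tle_herm, Complex.ofReal_im]
    conv_lhs => rw [h2]
    rw [Complex.norm_real, Real.norm_eq_abs]
  have h3 : (hf x x).re ≠ 0 := ne_of_lt hx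
  rw [hd, h1, Real.sqrt_mul_self_eq_abs, div_self (abs_ne_zero.2 h3), Real.arcosh_zero, mul_zero]

theorem tle_nonneg (h1 : ST_TL1) {x y : V3} (hx : Neg x) (hy : Neg y) : 0 ≤ hd x y := by
  have h2 := h1 x y x hx hy hx
  rw [tle_hd_self hx, tle_hd_symm y x] at h2
  linarith

theorem tle_neg {g : E3} (hg : Pres g) {x : V3} (hx : Neg x) : Neg (g x) := by
  rw [Neg, hg]
  exact hx

theorem tle_hd {g : E3} (hg : Pres g) (x y : V3) : hd (g x) (g y) = hd x y := by
  rw [hd, hd, hg, hg, hg]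

theorem tle_pow {g : E3} (hg : Pres g) (n : ℕ) : Pres (g ^ n) := by
  induction n with
  | zero => intro x y; simp
  | succ n ih =>
    intro x y
    rw [pow_succ, Module.End.mul_apply, Module.End.mul_apply, ih, hg]

theorem tle_mid (h2 : ST_TL2) {f : E3} (hf' : Pres f) : ∀ (k : ℕ) (x : V3), Neg x →
    ∃ m : V3, Neg m ∧ (2 : ℝ) ^ k * hd m (f m) ≤ hd x ((f ^ (2 ^ k)) x) := by
  intro k
  induction k with
  | zero =>
    intro x hx
    exact ⟨x, hx, by simp⟩
  | succ k ih =>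
    intro x hx
    obtain ⟨m', hm', hle⟩ := h2 (f ^ (2 ^ k)) (tle_pow hf' _) x hx
    obtain ⟨m, hm, hle2⟩ := ih m' hm'
    refine ⟨m, hm, ?_⟩
    have h3 : (f ^ (2 ^ (k + 1))) x = (f ^ (2 ^ k)) ((f ^ (2 ^ k)) x) := by
      rw [pow_succ, mul_two, pow_add, Module.End.mul_apply]
    rw [h3, pow_succ]
    linarith

theorem tle_sub (h1 : ST_TL1) {g : E3} (hg : Pres g) {x : V3} (hx : Neg x) (n : ℕ) :
    hd x ((g ^ n) x) ≤ n * hd x (g x) := by
  induction n with
  | zero =>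
    simp only [pow_zero, Nat.cast_zero, zero_mul]
    exact le_of_eq (tle_hd_self hx)
  | succ n ih =>
    have h2 := h1 x ((g ^ n) x) ((g ^ (n + 1)) x) hx (tle_neg (tle_pow hg n) hx)
      (tle_neg (tle_pow hg _) hx)
    have h3 : hd ((g ^ n) x) ((g ^ (n + 1)) x) = hd x (g x) := by
      rw [pow_succ, Module.End.mul_apply, tle_hd (tle_pow hg n)]
    rw [h3] at h2
    push_cast
    linarith

theorem tle_bdd (h1 : ST_TL1) {g : E3} (hg : Pres g) :
    BddBelow {t | ∃ x, Neg x ∧ t = hd x (g x)} := by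
  refine ⟨0, ?_⟩
  rintro t ⟨x, hx, rfl⟩
  exact tle_nonneg h1 hx (tle_neg hg hx)

theorem tle_le (h1 : ST_TL1) (h2 : ST_TL2) {g : E3} (hg : Pres g) {x : V3} (hx : Neg x) (k : ℕ) :
    (2 : ℝ) ^ k * tl g ≤ hd x ((g ^ (2 ^ k)) x) := by
  obtain ⟨m, hm, hle⟩ := tle_mid h2 hg k x hx
  have h3 : tl g ≤ hd m (g m) := csInf_le (tle_bdd h1 hg) ⟨m, hm, rfl⟩
  have h4 : (0 : ℝ) < 2 ^ k := by positivity
  exact (mul_le_mul_of_nonneg_left h3 h4.le).trans hle

theorem st_TLE' : ST_TLE' := by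
  intro h1 h2 h3 g g' hg hg' hC
  obtain ⟨C, hC⟩ := hC
  have hne : {t | ∃ x, Neg x ∧ t = hd x (g x)}.Nonempty := by
    refine ⟨_, ![0, 0, 1], ?_, rfl⟩
    simp [Neg, hf]
  refine le_csInf hne ?_
  rintro t ⟨x, hx, rfl⟩
  obtain ⟨C₁, hC₁, hx3⟩ := h3 x hx
  let C' : ℝ := |C| + 1
  have hC' : 0 < C' := by positivity
  have hnn : ∀ f : V3 → V3, 0 ≤ nrm f := fun f => Finset.sum_nonneg fun i _ => norm_nonneg _
  have key : ∀ n : ℕ, hd x ((g' ^ n) x) ≤ 2 * Real.log (C₁ * C' * C₁) + n * hd x (g x) := by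
    intro n
    have a1 := (hx3 (g' ^ n) (tle_pow hg' n)).2
    have a2 := (hx3 (g ^ n) (tle_pow hg n)).1
    have a3 : nrm (g' ^ n : E3) ≤ C' * nrm (g ^ n : E3) := by
      refine (hC n).trans (mul_le_mul_of_nonneg_right ?_ (hnn _))
      exact (le_abs_self C).trans (by simp [C'])
    have a4 : Real.exp (hd x ((g' ^ n) x) / 2) ≤
        C₁ * C' * C₁ * Real.exp (hd x ((g ^ n) x) / 2) := by
      calc Real.exp (hd x ((g' ^ n) x) / 2) ≤ C₁ * nrm (g' ^ n : E3) := a1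
        _ ≤ C₁ * (C' * nrm (g ^ n : E3)) := mul_le_mul_of_nonneg_left a3 hC₁.le
        _ ≤ C₁ * (C' * (C₁ * Real.exp (hd x ((g ^ n) x) / 2))) :=
          mul_le_mul_of_nonneg_left (mul_le_mul_of_nonneg_left a2 hC'.le) hC₁.le
        _ = _ := by ring
    have hK : 0 < C₁ * C' * C₁ := by positivity
    have a5 := Real.log_le_log (Real.exp_pos _) a4
    rw [Real.log_exp, Real.log_mul hK.ne' (Real.exp_pos _).ne', Real.log_exp] at a5
    have a6 := tle_sub h1 hg hx n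
    linarith
  by_contra hlt
  rw [not_le] at hlt
  -- `2 ^ k (tl g' - hd x (g x))` is bounded
  have hb : ∀ k : ℕ, (2 : ℝ) ^ k * (tl g' - hd x (g x)) ≤ 2 * Real.log (C₁ * C' * C₁) := by
    intro k
    have b1 := tle_le h1 h2 hg' hx k
    have b2 := key (2 ^ k)
    push_cast at b2
    have : (2 : ℝ) ^ k * (tl g' - hd x (g x)) = 2 ^ k * tl g' - 2 ^ k * hd x (g x) := by ring
    rw [this]
    linarith
  have hd0 : 0 < tl g' - hd x (g x) := by linarith
  obtain ⟨k, hk⟩ := pow_unbounded_of_one_lt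
    (2 * Real.log (C₁ * C' * C₁) / (tl g' - hd x (g x))) (one_lt_two (α := ℝ))
  rw [div_lt_iff₀ hd0] at hk
  exact absurd (hb k) (not_le.2 hk)

end Pool.Agent.Helper6.MONO
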