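import Pool.Agent.Helper6.MONO.Stmts2
import Pool.Agent.Helper2.MONO.NRM

/-!
Uniform comparison of norms, with exponential gain in the word length.
-/

set_option autoImplicit false
noncomputable section
namespace Pool.Agent.Helper6.MONO.S

theorem nrm2_alt_len (i j : Fin 3) (n : ℕ) : (alt i j n).length = n := by
  induction n generalizing i j with
  | zero => rfl
  | succ n ih => simp only [alt, List.length_cons, ih]

theorem nrm2_blk_len (d e : Fin 3) (ε : Bool) (m : ℕ) : (blk d e ε m).length ≤ m := by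
  unfold blk
  split_ifs
  · rw [nrm2_alt_len]
  · rw [nrm2_alt_len]
    omega

theorem nrm2_mm_le (p q r : ℕ) (i j : Fin 3) : mm p q r i j ≤ p + q + r + 1 := by
  fin_cases i <;> fin_cases j <;> simp [mm] <;> omega

/-- the length of an admissible path -/
theorem nrm2_bw_len (p q r : ℕ) (bs : List (Bool × ℕ)) : ∀ (v : Bool)
    (t : Fin 3 × Fin 3 × Fin 3), okPath p q r v t bs →
    (bw t bs).length ≤ (p + q + r + 2) * bs.length := by
  induction bs with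
  | nil =>
    intro v t _
    simp [bw]
  | cons b bs ih =>
    obtain ⟨ε, m⟩ := b
    rintro v ⟨c, d, e⟩ ⟨hal, hok⟩
    have h1 := ih _ _ hok
    have h2 := nrm2_blk_len d e ε m
    have h3 := nrm2_mm_le p q r d e
    have h4 : m ≤ mm p q r d e + 1 := by
      rcases hal with ⟨-, -, -, h⟩ | ⟨-, -, -, h⟩ | ⟨-, -, -, h⟩ <;> omega
    simp only [bw, List.length_append, List.length_cons]
    rw [mul_add, mul_one]
    omega

/-- comparison for one star -/
theorem nrm2_star (hPTH : ST_PTH) (hE : ST_BLK true) (hO : ST_BLK false) (hCHN : ST_CHN)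
    (hSPN : ST_SPN) (p q r : ℕ) (hp : 3 ≤ p) (hq : 3 ≤ q) (hr : 3 ≤ r) (s1 : ℝ) (hs1 : s1 ≤ 1)
    (CM dl : ℝ) (hCM : 0 < CM)
    (hM : ∀ (c d e : Fin 3), Dist c d e → ∀ a0, isA0 a0 →
    ∀ bs : List (Bool × ℕ),
    okPath p q r false (c, d, e) bs → ∀ s, 0 ≤ s → s ≤ s1 →
      NR s (kk p q r d e) (kk p q r c d) (kk p q r c e) (zst p q r s (c, d, e) a0) ∧
      nP p q r s (c, d, e) (zst p q r s (c, d, e) a0) bs ∧
      0 ≤ fP p q r s (c, d, e) (zst p q r s (c, d, e) a0) bs ∧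
      |(zst p q r s (c, d, e) a0).yr| ≤ CM ∧
      |(zP p q r s (c, d, e) (zst p q r s (c, d, e) a0) bs).a| ≤ CM ∧
      |(zP p q r s (c, d, e) (zst p q r s (c, d, e) a0) bs).b| ≤ CM ∧
      |(zP p q r s (c, d, e) (zst p q r s (c, d, e) a0) bs).be| ≤ CM ∧
      |(zP p q r s (c, d, e) (zst p q r s (c, d, e) a0) bs).yr| ≤ CM ∧
      ∀ s', s ≤ s' → s' ≤ s1 →
        fP p q r s' (c, d, e) (zst p q r s' (c, d, e) a0) bs ≤
          CM * Real.exp (-(dl * (s' - s) * bs.length)) *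
            fP p q r s (c, d, e) (zst p q r s (c, d, e) a0) bs)
    (τ τ' : ℝ) (G G' : Fin 3 → Fin 3 → ℂ) (hττ : |τ| ≤ |τ'|)
    (hτ' : τ' ^ 2 ≤ s1) (hG : IsG p q r τ G) (hG' : IsG p q r τ' G') (c d e : Fin 3)
    (hD : Dist c d e) :
    ∃ C : ℝ, 0 ≤ C ∧ ∀ bs : List (Bool × ℕ), okPath p q r false (c, d, e) bs →
      ∀ A : ℝ, 0 ≤ A → (∀ x : V3, ‖gact G (bw (c, d, e) bs) x‖ ≤ A * ‖x‖) →
      nrm (gact G' (bw (c, d, e) bs)) ≤
        C * Real.exp (-(dl * (τ' ^ 2 - τ ^ 2) / 2 * bs.length)) * A := by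
  have hsq : τ ^ 2 ≤ τ' ^ 2 := sq_le_sq.mpr hττ
  have hs0 : 0 ≤ τ ^ 2 := sq_nonneg _
  have hs0' : 0 ≤ τ' ^ 2 := sq_nonneg _
  have hτs1 : τ ^ 2 ≤ s1 := hsq.trans hτ'
  have hτ'1 : |τ'| ≤ 1 := by
    rw [← abs_one (α := ℝ)]
    exact sq_le_sq.mp (by linarith)
  have hτ1 : |τ| ≤ 1 := hττ.trans hτ'1
  obtain ⟨C1, hC1, hone⟩ := nrm_one hPTH hE hO hCHN p q r hp hq hr CM
  obtain ⟨x, hxi, hx⟩ := hSPN p q r hp hq hr τ G hG c d e hD
    (fun i => (hM c d e hD (av i) (nrm_isA0 i) [] trivial (τ ^ 2) hs0 hτs1).1)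
  obtain ⟨x', hxi', hx'⟩ := hSPN p q r hp hq hr τ' G' hG' c d e hD
    (fun i => (hM c d e hD (av i) (nrm_isA0 i) [] trivial (τ' ^ 2) hs0' hτ').1)
  obtain ⟨Cb, hCb, hbas⟩ := nrm_basis x' hxi'
  set X : ℝ := ∑ i, ‖x i‖ with hX
  have hX0 : 0 ≤ X := Finset.sum_nonneg (fun _ _ => norm_nonneg _)
  refine ⟨Cb * (C1 * (Real.sqrt CM * X)), by positivity, ?_⟩
  intro bs hok A hA hgA
  set E : ℝ := Real.exp (-(dl * (τ' ^ 2 - τ ^ 2) / 2 * bs.length)) with hEdef
  have hE0 : 0 < E := Real.exp_pos _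
  have hE2 : Real.exp (-(dl * (τ' ^ 2 - τ ^ 2) * bs.length)) = E ^ 2 := by
    rw [hEdef, ← Real.exp_nat_mul]
    congr 1
    push_cast
    ring
  have e0 : Cb * (C1 * (Real.sqrt CM * X)) * E * A = Cb * (C1 * (Real.sqrt CM * X) * E * A) := by
    ring
  rw [e0]
  refine hbas (nrm_lin G' (bw (c, d, e) bs)) (C1 * (Real.sqrt CM * X) * E * A) ?_
  intro i
  rw [nrm_lin_apply]
  obtain ⟨-, hn, hf0, -, ha, hb, hbe, hyr, hcmp⟩ :=
    hM c d e hD (av i) (nrm_isA0 i) bs hok (τ ^ 2) hs0 hτs1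
  obtain ⟨-, hn', hf0', -, ha', hb', hbe', hyr', -⟩ :=
    hM c d e hD (av i) (nrm_isA0 i) bs hok (τ' ^ 2) hs0' hτ'
  have hcmp' := hcmp (τ' ^ 2) hsq hτ'
  rw [hE2] at hcmp'
  have h1 := (hone τ G hτ1 hG c d e bs hD hok (x i) _ (hx i) hn ha hb hbe hyr).1
  have h2 := (hone τ' G' hτ'1 hG' c d e bs hD hok (x' i) _ (hx' i) hn' ha' hb' hbe' hyr').2
  have h3 : ‖gact G (bw (c, d, e) bs) (x i)‖ ≤ A * X := by
    refine (hgA (x i)).trans (mul_le_mul_of_nonneg_left ?_ hA)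
    exact Finset.single_le_sum (f := fun i => ‖x i‖) (fun _ _ => norm_nonneg _)
      (Finset.mem_univ i)
  have h4 : ‖gact G (bw (c, d, e) bs) (x i)‖ ^ 2 ≤ (A * X) ^ 2 :=
    pow_le_pow_left₀ (norm_nonneg _) h3 2
  have h5 : ‖gact G' (bw (c, d, e) bs) (x' i)‖ ^ 2 ≤
      (C1 * (Real.sqrt CM * X) * E * A) ^ 2 := by
    calc ‖gact G' (bw (c, d, e) bs) (x' i)‖ ^ 2
        ≤ C1 ^ 2 * fP p q r (τ' ^ 2) (c, d, e) (zst p q r (τ' ^ 2) (c, d, e) (av i)) bs := h2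
      _ ≤ C1 ^ 2 * (CM * E ^ 2 * (A * X) ^ 2) := by
          refine mul_le_mul_of_nonneg_left (hcmp'.trans ?_) (sq_nonneg _)
          exact mul_le_mul_of_nonneg_left (h1.trans h4) (by positivity)
      _ = (C1 * (Real.sqrt CM * X) * E * A) ^ 2 := by
          have : Real.sqrt CM ^ 2 = CM := Real.sq_sqrt hCM.le
          calc C1 ^ 2 * (CM * E ^ 2 * (A * X) ^ 2) =
              C1 ^ 2 * (Real.sqrt CM ^ 2 * E ^ 2 * (A * X) ^ 2) := by rw [this]
            _ = _ := by ring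
  exact le_of_sq_le_sq h5 (by positivity)

theorem st_NRM : ST_NRM := by
  intro hPATH hPTH hE hO hCHN hSPN hINV p q r hp hq hr s1 hs1 hMB τ τ' G G' hττ hτ' hG hG'
  obtain ⟨B, hB⟩ := hPATH p q r hp hq hr
  obtain ⟨CM, dl, hCM, hdl, hM⟩ := hMB
  classical
  set δ : ℝ := dl * (τ' ^ 2 - τ ^ 2) / 2 with hδ
  have hδ0 : 0 < δ := by
    have h1 : τ ^ 2 < τ' ^ 2 := sq_lt_sq.mpr hττ
    have h2 : 0 < τ' ^ 2 - τ ^ 2 := by linarith
    rw [hδ]
    positivity
  have hst : ∀ t : Fin 3 × Fin 3 × Fin 3, ∃ C : ℝ, 0 ≤ C ∧ (Dist t.1 t.2.1 t.2.2 →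
      ∀ bs : List (Bool × ℕ), okPath p q r false t bs →
      ∀ A : ℝ, 0 ≤ A → (∀ x : V3, ‖gact G (bw t bs) x‖ ≤ A * ‖x‖) →
      nrm (gact G' (bw t bs)) ≤ C * Real.exp (-(δ * bs.length)) * A) := by
    rintro ⟨c, d, e⟩
    by_cases hD : Dist c d e
    · obtain ⟨C, hC, h⟩ := nrm2_star hPTH hE hO hCHN hSPN p q r hp hq hr s1 hs1 CM dl hCM hM
        τ τ' G G' hττ.le hτ' hG hG' c d e hD
      exact ⟨C, hC, fun _ => h⟩
    · exact ⟨0, le_rfl, fun h => absurd h hD⟩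
  choose Ct hCt0 hCt using hst
  set CS : ℝ := ∑ t, Ct t with hCS
  have hCS0 : 0 ≤ CS := Finset.sum_nonneg (fun t _ => hCt0 t)
  have hK := nrm_K_one G
  have hK' := nrm_K_one G'
  set M : ℝ := ((p + q + r + 2 : ℕ) : ℝ) with hMdef
  have hM0 : 0 < M := by
    rw [hMdef]
    exact_mod_cast (by omega : 0 < p + q + r + 2)
  refine ⟨3 * (CS * nrm_K G ^ B) * nrm_K G' ^ B * Real.exp (δ * B / M), δ / M, by positivity, ?_⟩
  intro w
  obtain ⟨h, c, d, e, bs, hD, hlen, hok, hEq⟩ := hB w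
  have hN := nrm_nonneg (gact G w)
  set E : ℝ := Real.exp (-(δ * bs.length)) with hEdef
  have hE0 : 0 < E := Real.exp_pos _
  -- the length
  have hml : ((mlen p q r w : ℕ) : ℝ) ≤ B + M * bs.length := by
    have h1 : mlen p q r w ≤ (h ++ bw (c, d, e) bs).length := Nat.sInf_le ⟨_, hEq, rfl⟩
    have h2 := nrm2_bw_len p q r bs false (c, d, e) hok
    rw [List.length_append] at h1
    have h3 : mlen p q r w ≤ B + (p + q + r + 2) * bs.length := by omega
    have h4 : ((mlen p q r w : ℕ) : ℝ) ≤ ((B + (p + q + r + 2) * bs.length : ℕ) : ℝ) := by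
      exact_mod_cast h3
    rw [hMdef]
    refine h4.trans (le_of_eq ?_)
    push_cast
    ring
  have hEle : E ≤ Real.exp (δ * B / M) * Real.exp (-(δ / M * mlen p q r w)) := by
    rw [hEdef, ← Real.exp_add]
    apply Real.exp_le_exp.mpr
    have h1 : δ / M * (mlen p q r w : ℝ) ≤ δ / M * (B + M * bs.length) :=
      mul_le_mul_of_nonneg_left hml (by positivity)
    have h2 : δ / M * (B + M * bs.length) = δ * B / M + δ * bs.length := by
      field_simp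
    linarith
  -- bound for the path in G
  have h1 : ∀ x : V3, ‖gact G (bw (c, d, e) bs) x‖ ≤ (nrm_K G ^ B * nrm (gact G w)) * ‖x‖ := by
    intro x
    have e1 : gact G h (gact G h.reverse x) = x := by
      have := nrm_inv hINV p q r hp hq hr τ G hG h.reverse x
      rwa [List.reverse_reverse] at this
    have e2 : gact G (bw (c, d, e) bs) x = gact G w (gact G h.reverse x) := by
      rw [hEq τ G hG, nrm_gact_app, e1]
    rw [e2]
    calc ‖gact G w (gact G h.reverse x)‖ ≤ nrm (gact G w) * ‖gact G h.reverse x‖ :=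
          nrm_gact_bound G w _
      _ ≤ nrm (gact G w) * (nrm_K G ^ B * ‖x‖) :=
          mul_le_mul_of_nonneg_left
            (nrm_word_bound' G h.reverse B (by rwa [List.length_reverse]) x) hN
      _ = (nrm_K G ^ B * nrm (gact G w)) * ‖x‖ := by ring
  have h2 := hCt (c, d, e) hD bs hok (nrm_K G ^ B * nrm (gact G w)) (by positivity) h1
  have h3 : Ct (c, d, e) ≤ CS :=
    Finset.single_le_sum (f := Ct) (fun t _ => hCt0 t) (Finset.mem_univ _)
  have h4 : nrm (gact G' (bw (c, d, e) bs)) ≤ CS * E * (nrm_K G ^ B * nrm (gact G w)) :=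
    h2.trans (mul_le_mul_of_nonneg_right (mul_le_mul_of_nonneg_right h3 hE0.le) (by positivity))
  have h5 : ∀ i : Fin 3, ‖gact G' w (Pi.single i 1)‖ ≤
      CS * E * (nrm_K G ^ B * nrm (gact G w)) * nrm_K G' ^ B := by
    intro i
    rw [hEq τ' G' hG', nrm_gact_app]
    have hs : ‖(Pi.single i 1 : V3)‖ = 1 := by
      rw [Pi.norm_single, norm_one]
    calc ‖gact G' (bw (c, d, e) bs) (gact G' h (Pi.single i 1))‖
        ≤ nrm (gact G' (bw (c, d, e) bs)) * ‖gact G' h (Pi.single i 1)‖ := nrm_gact_bound G' _ _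
      _ ≤ CS * E * (nrm_K G ^ B * nrm (gact G w)) * nrm_K G' ^ B := by
          refine mul_le_mul h4 ?_ (norm_nonneg _) (by positivity)
          have := nrm_word_bound' G' h B hlen (Pi.single i 1)
          rwa [hs, mul_one] at this
  calc nrm (gact G' w) = ∑ i : Fin 3, ‖gact G' w (Pi.single i 1)‖ := rfl
    _ ≤ ∑ _i : Fin 3, CS * E * (nrm_K G ^ B * nrm (gact G w)) * nrm_K G' ^ B :=
        Finset.sum_le_sum (fun i _ => h5 i)
    _ = 3 * (CS * nrm_K G ^ B) * nrm_K G' ^ B * nrm (gact G w) * E := by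
        rw [Finset.sum_const, Finset.card_univ, Fintype.card_fin, nsmul_eq_mul]
        push_cast
        ring
    _ ≤ 3 * (CS * nrm_K G ^ B) * nrm_K G' ^ B * nrm (gact G w) *
        (Real.exp (δ * B / M) * Real.exp (-(δ / M * mlen p q r w))) :=
        mul_le_mul_of_nonneg_left hEle (by positivity)
    _ = 3 * (CS * nrm_K G ^ B) * nrm_K G' ^ B * Real.exp (δ * B / M) *
        Real.exp (-(δ / M * mlen p q r w)) * nrm (gact G w) := by ring

end Pool.Agent.Helper6.MONO.S
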