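import Pool.Agent.Helper6.MONO.Stmts2
import Pool.Agent.Helper55.MONO.REG

/-!
A valid group of stars gives a region (quantitative version).
-/

set_option autoImplicit false
noncomputable section
namespace Pool.Agent.Helper6.MONO.S

theorem st_REG : ST_REG := by
  intro hTRS hTGS hTGC hSTS hRBF hRBT sa sb G A B C hG hcov hA hB hC p q r hp hq hr hAp hBq hCr
  have hTGS' := hTGS hTRS
  have hTGC' := hTGC hRBF hRBT
  have hms : ∀ s : ℝ, (sa : ℝ) / 268435456 ≤ s → s ≤ (sb : ℝ) / 268435456 →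
      mem s (I.pos sa sb) := by
    intro s h1 h2
    refine (mem_pos_iff _ _ _).2 ⟨?_, ?_⟩
    · rw [div_le_iff₀ (by norm_num)] at h1
      exact h1
    · rw [le_div_iff₀ (by norm_num)] at h2
      exact h2
  refine ⟨{x : Bx // x ∈ regG G}, fun j t => regAt p q r G j.1 t, fun j => j.1.v,
    fun j => (j.1.pot : ℝ) / 268435456, fun j z => memSt z j.1.z, regBd G, ?_, ?_, ?_, ?_⟩
  · rintro ⟨x, hx⟩
    have h1 := reg_le G x hx
    have h2 := regI_nonneg x.z.a
    have h3 := regI_nonneg x.z.b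
    have h4 := regI_nonneg x.z.be
    have h5 := regI_nonneg x.z.yr
    unfold regB at h1
    show |(x.pot : ℝ) / 268435456| ≤ regBd G
    have h0 : (0 : ℝ) ≤ x.pot := Nat.cast_nonneg _
    rw [abs_of_nonneg (by positivity)]
    have h6 : (x.pot : ℝ) / 268435456 ≤ x.pot := div_le_self h0 (by norm_num)
    linarith
  · rintro ⟨x, hx⟩ z hz
    have hz' : memSt z x.z := hz
    have h1 := reg_le G x hx
    have h2 := regI_nonneg x.z.a
    have h3 := regI_nonneg x.z.b
    have h4 := regI_nonneg x.z.be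
    have h5 := regI_nonneg x.z.yr
    have h0 : (0 : ℝ) ≤ x.pot := Nat.cast_nonneg _
    have k1 := regI_mem _ _ hz'.a
    have k2 := regI_mem _ _ hz'.b
    have k3 := regI_mem _ _ hz'.be
    have k4 := regI_mem _ _ hz'.yr
    unfold regB at h1
    refine ⟨?_, ?_, ?_, ?_⟩ <;> linarith
  · intro c d e hd a0 ha0
    obtain ⟨X, Y, Z, hperm, hF⟩ := reg_cls A B C p q r c d e hd
    obtain ⟨i, hi, hX, hY, hZ⟩ := hcov X Y Z hperm
    obtain ⟨⟨f1, g1⟩, ⟨f2, g2⟩, ⟨f3, g3⟩⟩ := hF (fun D M => InC D M ∧ ClsOK D) ⟨hAp, hA⟩ ⟨hBq, hB⟩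
      ⟨hCr, hC⟩
    have hS := hG i hi
    obtain ⟨a0I, w, yl, yh, hm, hck⟩ := reg_a0 a0 ha0 _ _ _ hS
    obtain ⟨x, hx, hst⟩ := reg_lk w _ _ hck
    have hmem := reg_memG G i hi x w hx
    have e3 : 3 ≤ mm p q r d e := reg_mm3 p q r hp hq hr d e hd.2.1
    have e4 : 3 ≤ mm p q r c d := reg_mm3 p q r hp hq hr c d hd.1
    have e5 : 3 ≤ mm p q r c e := reg_mm3 p q r hp hq hr c e (Ne.symm hd.2.2)
    have hk := reg_Kp _ e3
    have hkd := reg_Kp _ e4
    have hke := reg_Kp _ e5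
    have key : ∀ s : ℝ, (sa : ℝ) / 268435456 ≤ s → s ≤ (sb : ℝ) / 268435456 →
        4 * Kst s (kk p q r d e) (kk p q r c d) (kk p q r c e) * (a0 * a0 + SbP (kk p q r c d)) < 1 ∧
        x.v = false ∧ memSt ⟨a0, 0, 0, y0 s (kk p q r d e) (kk p q r c d) (kk p q r c e) a0,
          0, 0, 0⟩ x.z := by
      intro s h1 h2
      have hs0 : 0 ≤ s := le_trans (by positivity) h1
      refine hSTS sa sb a0I (getS G i).ck.k (getS G i).cd.k (getS G i).ce.k yl yh x hst s a0
        (kk p q r d e) (kk p q r c d) (kk p q r c e) (hms s h1 h2) hm ?_ ?_ ?_ hs0 hk.1 hk.2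
        hkd.1 hkd.2 hke.1
      · rw [hX]; exact g1.mem _ f1
      · rw [hY]; exact g2.mem _ f2
      · rw [hZ]; exact g3.mem _ f3
    have hxv : x.v = false := by
      cases hv : x.v with
      | false => rfl
      | true =>
        exfalso
        unfold stB at hst
        rw [hv] at hst
        have hst2 : false = true := hst
        exact Bool.noConfusion hst2
    refine ⟨⟨x, hmem⟩, ⟨i, hi, ⟨w, hx⟩, ?_, ?_, ?_⟩, hxv, fun s h1 h2 =>
      ⟨(key s h1 h2).1, (key s h1 h2).2.2⟩⟩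
    · rw [hX]; exact ⟨f1, g1⟩
    · rw [hY]; exact ⟨f2, g2⟩
    · rw [hZ]; exact ⟨f3, g3⟩
  · rintro ⟨x, hxG⟩ c d e hd ⟨i, hi, ⟨w, hx⟩, ⟨f1, g1⟩, ⟨f2, g2⟩, ⟨f3, g3⟩⟩ ε m hal s z hs1 hs2 hz
    have hz' : memSt z x.z := hz
    have hal' : allowed (mm p q r d e) x.v ε m := hal
    have f1' : InC (getS G i).ck (mm p q r d e) := f1
    have f2' : InC (getS G i).cd (mm p q r c d) := f2
    have f3' : InC (getS G i).ce (mm p q r c e) := f3
    have hS := hG i hi
    obtain ⟨t, ht, ht1, ht2, ht3, ht4, ht5, ht6⟩ := hTGC' (getS G i).ck.ct x.v (mm p q r d e)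
      (fun h => g1.c3 h _ f1') (fun h => g1.c4 h _ f1') (fun h => g1.c5 h _ f1')
      (fun h => g1.g h _ f1') ε m hal'
    obtain ⟨RI, tr, hck⟩ := reg_allL _ _ t (reg_all _ w _ x hS.bx hx) ht
    obtain ⟨k1, w', x', hx', hv', hm', hL'⟩ := hTGS' sa sb (getS G i).ck (getS G i).cd
      (getS G i).ce (nxt G (getS G i) t.even).bt x t RI tr hck ht6 s (kk p q r d e) (kk p q r c d)
      (kk p q r c e) (Rb (mm p q r d e) m) z (hms s hs1 hs2) (g1.mem _ f1') (g2.mem _ f2')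
      (g3.mem _ f3') hz' ht4 ht5
    rw [ht1, ht2] at k1 hm' hL'
    refine ⟨k1, ?_⟩
    cases hev : ev2 m with
    | true =>
      rw [hev] at ht2 hm' hL'
      have hn : nxt G (getS G i) t.even = getS G (getS G i).nE := by
        unfold nxt
        rw [ht2]
        rfl
      rw [hn] at hx'
      refine ⟨⟨x', reg_memG G _ hS.lE x' w' hx'⟩, ⟨(getS G i).nE, hS.lE, ⟨w', hx'⟩, ?_, ?_, ?_⟩,
        fun h => ht3 (hv' h), hm', ?_⟩
      · show InC _ (mm p q r d c) ∧ ClsOK _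
        rw [hS.e1, reg_mm]
        exact ⟨f2', g2⟩
      · show InC _ (mm p q r e d) ∧ ClsOK _
        rw [hS.e2, reg_mm]
        exact ⟨f1', g1⟩
      · show InC _ (mm p q r e c) ∧ ClsOK _
        rw [hS.e3, reg_mm]
        exact ⟨f3', g3⟩
      · have e1 : ((x'.pot : ℝ) - x.pot) / 268435456 =
            (x'.pot : ℝ) / 268435456 - (x.pot : ℝ) / 268435456 := sub_div _ _ _
        rw [e1] at hL'
        exact hL'
    | false =>
      rw [hev] at ht2 hm' hL'
      have hn : nxt G (getS G i) t.even = getS G (getS G i).nO := by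
        unfold nxt
        rw [ht2]
        rfl
      rw [hn] at hx'
      refine ⟨⟨x', reg_memG G _ hS.lO x' w' hx'⟩, ⟨(getS G i).nO, hS.lO, ⟨w', hx'⟩, ?_, ?_, ?_⟩,
        fun h => ht3 (hv' h), hm', ?_⟩
      · show InC _ (mm p q r e c) ∧ ClsOK _
        rw [hS.o1, reg_mm]
        exact ⟨f3', g3⟩
      · show InC _ (mm p q r d e) ∧ ClsOK _
        rw [hS.o2]
        exact ⟨f1', g1⟩
      · show InC _ (mm p q r d c) ∧ ClsOK _
        rw [hS.o3, reg_mm]
        exact ⟨f2', g2⟩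
      · have e1 : ((x'.pot : ℝ) - x.pot) / 268435456 =
            (x'.pot : ℝ) / 268435456 - (x.pot : ℝ) / 268435456 := sub_div _ _ _
        rw [e1] at hL'
        exact hL'

end Pool.Agent.Helper6.MONO.S
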