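import Pool.Agent.Helper6.MONO.Stmts2
import Pool.Agent.Helper48.MONO.TLE

/-!
Module TLE2 (`MP_c75db0_gt`): comparison of translation lengths with an exponential gain.
-/

set_option autoImplicit false
noncomputable section
namespace Pool.Agent.Helper6.MONO.S

theorem st_TLE : ST_TLE := by
  intro h1 h2 h3 g g' hg hg' c hc hC
  obtain ⟨C, hC⟩ := hC
  have hne : {t | ∃ x, Neg x ∧ t = hd x (g x)}.Nonempty := by
    refine ⟨_, ![0, 0, 1], ?_, rfl⟩
    simp [Neg, hf]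
  rw [le_sub_iff_add_le]
  refine le_csInf hne ?_
  rintro t ⟨x, hx, rfl⟩
  obtain ⟨C₁, hC₁, hx3⟩ := h3 x hx
  let C' : ℝ := |C| + 1
  have hC' : 0 < C' := by positivity
  have hnn : ∀ f : V3 → V3, 0 ≤ nrm f := fun f => Finset.sum_nonneg fun i _ => norm_nonneg _
  have key : ∀ k : ℕ, hd x ((g' ^ (2 ^ k)) x) ≤
      2 * Real.log (C₁ * C' * C₁) - 2 * (c * 2 ^ k) + 2 ^ k * hd x (g x) := by
    intro k
    have a1 := (hx3 (g' ^ (2 ^ k)) (tle_pow hg' _)).2
    have a2 := (hx3 (g ^ (2 ^ k)) (tle_pow hg _)).1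
    have a3 : nrm (g' ^ (2 ^ k) : E3) ≤ C' * Real.exp (-(c * 2 ^ k)) * nrm (g ^ (2 ^ k) : E3) := by
      refine (hC k).trans (mul_le_mul_of_nonneg_right ?_ (hnn _))
      refine mul_le_mul_of_nonneg_right ?_ (Real.exp_pos _).le
      exact (le_abs_self C).trans (by simp [C'])
    have hE : 0 < C' * Real.exp (-(c * 2 ^ k)) := by positivity
    have a4 : Real.exp (hd x ((g' ^ (2 ^ k)) x) / 2) ≤
        (C₁ * C' * C₁ * Real.exp (-(c * 2 ^ k))) * Real.exp (hd x ((g ^ (2 ^ k)) x) / 2) := by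
      calc Real.exp (hd x ((g' ^ (2 ^ k)) x) / 2) ≤ C₁ * nrm (g' ^ (2 ^ k) : E3) := a1
        _ ≤ C₁ * (C' * Real.exp (-(c * 2 ^ k)) * nrm (g ^ (2 ^ k) : E3)) :=
          mul_le_mul_of_nonneg_left a3 hC₁.le
        _ ≤ C₁ * (C' * Real.exp (-(c * 2 ^ k)) *
              (C₁ * Real.exp (hd x ((g ^ (2 ^ k)) x) / 2))) :=
          mul_le_mul_of_nonneg_left (mul_le_mul_of_nonneg_left a2 hE.le) hC₁.le
        _ = _ := by ring
    have hK : 0 < C₁ * C' * C₁ := by positivity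
    have a5 := Real.log_le_log (Real.exp_pos _) a4
    rw [Real.log_exp, Real.log_mul (mul_pos hK (Real.exp_pos _)).ne' (Real.exp_pos _).ne',
      Real.log_mul hK.ne' (Real.exp_pos _).ne', Real.log_exp, Real.log_exp] at a5
    have a6 := tle_sub h1 hg hx (2 ^ k)
    push_cast at a6
    linarith
  by_contra hlt
  rw [not_le] at hlt
  -- `2 ^ k (tl g' + 2 c - hd x (g x))` is bounded
  have hb : ∀ k : ℕ, (2 : ℝ) ^ k * (tl g' + 2 * c - hd x (g x)) ≤
      2 * Real.log (C₁ * C' * C₁) := by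
    intro k
    have b1 := tle_le h1 h2 hg' hx k
    have b2 := key k
    have : (2 : ℝ) ^ k * (tl g' + 2 * c - hd x (g x)) =
      2 ^ k * tl g' + 2 * (c * 2 ^ k) - 2 ^ k * hd x (g x) := by ring
    rw [this]
    linarith
  have hd0 : 0 < tl g' + 2 * c - hd x (g x) := by linarith
  obtain ⟨k, hk⟩ := pow_unbounded_of_one_lt
    (2 * Real.log (C₁ * C' * C₁) / (tl g' + 2 * c - hd x (g x))) (one_lt_two (α := ℝ))
  rw [div_lt_iff₀ hd0] at hk
  exact absurd (hb k) (not_le.2 hk)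

end Pool.Agent.Helper6.MONO.S
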